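import Mathlib

/-!
An Eulerian binary matroid whose circuit odd-covers all use more circuits than its arboricity.
-/

set_option autoImplicit false

namespace Pool.Agent.Results.MP_a03d73_co.OddCover

open Finset

/-- The set `C` of nonzero vectors is a circuit: an inclusion-minimal nonempty Eulerian set. -/
def IsCircuit {n : ℕ} (C : Finset (Fin n → ZMod 2)) : Prop :=
  C.Nonempty ∧ 0 ∉ C ∧ ∑ x ∈ C, x = 0 ∧ ∀ D ⊆ C, D.Nonempty → ∑ x ∈ D, x = 0 → D = C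

/-- `M` has a circuit odd-cover by `t` circuits: the symmetric difference of the `t` circuits is
`M`, i.e. a vector is in `M` iff it lies in an odd number of the circuits. -/
def HasOddCover {n : ℕ} (M : Finset (Fin n → ZMod 2)) (t : ℕ) : Prop :=
  ∃ C : Fin t → Finset (Fin n → ZMod 2), (∀ i, IsCircuit (C i)) ∧
    ∀ x, x ∈ M ↔ Odd (univ.filter fun i => x ∈ C i).card

/-- The least number of circuits of a circuit odd-cover. -/
noncomputable def c₂ {n : ℕ} (M : Finset (Fin n → ZMod 2)) : ℕ := sInf {t | HasOddCover M t}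

/-- The arboricity: the least number of linearly independent sets whose union is `M`. -/
noncomputable def arb {n : ℕ} (M : Finset (Fin n → ZMod 2)) : ℕ :=
  sInf {t | ∃ I : Fin t → Finset (Fin n → ZMod 2),
    (∀ i, LinearIndepOn (ZMod 2) id (I i : Set (Fin n → ZMod 2))) ∧ ∀ x, x ∈ M ↔ ∃ i, x ∈ I i}

/-! ### Subset sums -/

section sums

variable {n : ℕ}

lemma add_self' (x : Fin n → ZMod 2) : x + x = 0 := by
  funext i
  exact CharTwo.add_self_eq_zero _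

/-- In a set without nonempty zero-sum subsets the subset sums are distinct. -/
lemma pow_card_le (D T : Finset (Fin n → ZMod 2)) (hT : ∀ A ⊆ D, ∑ x ∈ A, x ∈ T)
    (hD : ∀ A ⊆ D, A.Nonempty → ∑ x ∈ A, x ≠ 0) : 2 ^ D.card ≤ T.card := by
  classical
  rw [← card_powerset]
  apply card_le_card_of_injOn (fun A => ∑ x ∈ A, x)
  · intro A hA
    exact hT A (mem_powerset.1 hA)
  · intro A hA B hB hAB
    have hA' : A ⊆ D := mem_powerset.1 hA
    have hB' : B ⊆ D := mem_powerset.1 hB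
    by_contra hne
    have h1 : (symmDiff A B).Nonempty := by
      rw [Finset.nonempty_iff_ne_empty]
      intro h
      exact hne (symmDiff_eq_bot.1 h)
    apply hD (symmDiff A B) (symmDiff_le_sup.trans (union_subset hA' hB')) h1
    have h2 : ∑ x ∈ symmDiff A B, x = ∑ x ∈ A \ B, x + ∑ x ∈ B \ A, x := by
      rw [← sum_union (disjoint_sdiff_sdiff)]
      rfl
    have h3 : ∑ x ∈ A \ B, x + ∑ x ∈ A ∩ B, x = ∑ x ∈ A, x := by
      rw [← sum_union (disjoint_sdiff_inter A B), sdiff_union_inter]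
    have h4 : ∑ x ∈ B \ A, x + ∑ x ∈ A ∩ B, x = ∑ x ∈ B, x := by
      rw [inter_comm, ← sum_union (disjoint_sdiff_inter B A), sdiff_union_inter]
    have h5 : ∑ x ∈ A, x = ∑ x ∈ B, x := hAB
    rw [h2]
    have h6 : (∑ x ∈ A \ B, x) = ∑ x ∈ B \ A, x := by
      apply add_right_cancel (b := ∑ x ∈ A ∩ B, x)
      rw [h3, h4, h5]
    rw [h6]
    exact add_self' _

/-- A proper subset of a circuit has no nonempty zero-sum subset. -/
lemma circuit_sub {C D : Finset (Fin n → ZMod 2)} (hC : IsCircuit C) (hD : D ⊂ C) :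
    ∀ A ⊆ D, A.Nonempty → ∑ x ∈ A, x ≠ 0 := by
  intro A hA hne h0
  have := hC.2.2.2 A (hA.trans hD.1) hne h0
  exact hD.2 (this ▸ hA)

lemma circuit_card {C : Finset (Fin n → ZMod 2)} (hC : IsCircuit C) : C.card ≤ n + 1 := by
  obtain ⟨x, hx⟩ := hC.1
  have h1 := pow_card_le (C.erase x) univ (fun _ _ => mem_univ _)
    (circuit_sub hC (erase_ssubset hx))
  rw [card_univ, card_erase_of_mem hx] at h1
  have h2 : Fintype.card (Fin n → ZMod 2) = 2 ^ n := by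
    rw [Fintype.card_fun, ZMod.card, Fintype.card_fin]
  rw [h2] at h1
  have := (Nat.pow_le_pow_iff_right (by norm_num)).1 h1
  omega

end sums

/-! ### The example -/

/-- The first half: the vectors supported on the coordinates `0, …, 3` that do not vanish on the
coordinates `2, 3`. -/
def M₁ : Finset (Fin 8 → ZMod 2) :=
  univ.filter fun x => (x 4 = 0 ∧ x 5 = 0 ∧ x 6 = 0 ∧ x 7 = 0) ∧ ¬ (x 2 = 0 ∧ x 3 = 0)

/-- The second half. -/
def M₂ : Finset (Fin 8 → ZMod 2) :=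
  univ.filter fun x => (x 0 = 0 ∧ x 1 = 0 ∧ x 2 = 0 ∧ x 3 = 0) ∧ ¬ (x 6 = 0 ∧ x 7 = 0)

lemma card_M₁ : M₁.card = 12 := by decide +kernel

lemma card_M₂ : M₂.card = 12 := by decide +kernel

lemma sum_M : ∑ x ∈ M₁ ∪ M₂, x = 0 := by decide +kernel

/-- The span of the first half. -/
def W₁ : Finset (Fin 8 → ZMod 2) := univ.filter fun x => x 4 = 0 ∧ x 5 = 0 ∧ x 6 = 0 ∧ x 7 = 0

/-- The span of the second half. -/
def W₂ : Finset (Fin 8 → ZMod 2) := univ.filter fun x => x 0 = 0 ∧ x 1 = 0 ∧ x 2 = 0 ∧ x 3 = 0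

lemma card_W₁ : W₁.card = 16 := by decide +kernel

lemma card_W₂ : W₂.card = 16 := by decide +kernel

/-- The union of the two halves. -/
def M : Finset (Fin 8 → ZMod 2) := M₁ ∪ M₂

lemma disj : Disjoint M₁ M₂ := by
  rw [Finset.disjoint_left]
  intro x hx hx'
  rw [M₁, mem_filter] at hx
  rw [M₂, mem_filter] at hx'
  exact hx.2.2 ⟨hx'.2.1.2.2.1, hx'.2.1.2.2.2⟩

lemma sum_W₁ (A : Finset (Fin 8 → ZMod 2)) (hA : A ⊆ M₁) : ∑ x ∈ A, x ∈ W₁ := by
  have h : ∀ x ∈ A, x 4 = 0 ∧ x 5 = 0 ∧ x 6 = 0 ∧ x 7 = 0 := fun x hx =>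
    ((mem_filter.1 (hA hx)).2).1
  rw [W₁, mem_filter]
  refine ⟨mem_univ _, ?_, ?_, ?_, ?_⟩ <;> rw [Finset.sum_apply] <;>
    apply Finset.sum_eq_zero <;> intro x hx
  · exact (h x hx).1
  · exact (h x hx).2.1
  · exact (h x hx).2.2.1
  · exact (h x hx).2.2.2

lemma sum_W₂ (A : Finset (Fin 8 → ZMod 2)) (hA : A ⊆ M₂) : ∑ x ∈ A, x ∈ W₂ := by
  have h : ∀ x ∈ A, x 0 = 0 ∧ x 1 = 0 ∧ x 2 = 0 ∧ x 3 = 0 := fun x hx =>
    ((mem_filter.1 (hA hx)).2).1
  rw [W₂, mem_filter]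
  refine ⟨mem_univ _, ?_, ?_, ?_, ?_⟩ <;> rw [Finset.sum_apply] <;>
    apply Finset.sum_eq_zero <;> intro x hx
  · exact (h x hx).1
  · exact (h x hx).2.1
  · exact (h x hx).2.2.1
  · exact (h x hx).2.2.2

lemma W_inter {x y : Fin 8 → ZMod 2} (hx : x ∈ W₁) (hy : y ∈ W₂) (hxy : x + y = 0) : x = 0 := by
  rw [W₁, mem_filter] at hx
  rw [W₂, mem_filter] at hy
  obtain ⟨-, h4, h5, h6, h7⟩ := hx
  obtain ⟨-, h0, h1, h2, h3⟩ := hy
  have h : ∀ i, x i + y i = 0 := fun i => congrFun hxy i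
  funext i
  fin_cases i
  · have := h 0
    rw [h0, add_zero] at this
    exact this
  · have := h 1
    rw [h1, add_zero] at this
    exact this
  · have := h 2
    rw [h2, add_zero] at this
    exact this
  · have := h 3
    rw [h3, add_zero] at this
    exact this
  · exact h4
  · exact h5
  · exact h6
  · exact h7

/-- The bounds for the intersection with a half. -/
lemma bound {C N W : Finset (Fin 8 → ZMod 2)} (hC : IsCircuit C)
    (hW : ∀ A ⊆ N, ∑ x ∈ A, x ∈ W) (hcard : W.card = 16) :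
    (C ⊆ N → C.card ≤ 5) ∧ (¬ C ⊆ N → (C ∩ N).card ≤ 4) := by
  constructor
  · intro hCN
    obtain ⟨x, hx⟩ := hC.1
    have h1 := pow_card_le (C.erase x) W (fun A hA => hW A ((hA.trans (erase_subset _ _)).trans hCN))
      (circuit_sub hC (erase_ssubset hx))
    rw [hcard, card_erase_of_mem hx] at h1
    have := (Nat.pow_le_pow_iff_right (a := 2) (m := 4) (by norm_num)).1 h1
    omega
  · intro hCN
    have hss : C ∩ N ⊂ C := by
      refine ⟨inter_subset_left, fun h => hCN ?_⟩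
      exact fun x hx => (mem_inter.1 (h hx)).2
    have h1 := pow_card_le (C ∩ N) W (fun A hA => hW A (hA.trans inter_subset_right))
      (circuit_sub hC hss)
    rw [hcard] at h1
    exact (Nat.pow_le_pow_iff_right (a := 2) (m := 4) (by norm_num)).1 h1

lemma no_cover (t : ℕ) (ht : t ≤ 3) : ¬ HasOddCover M t := by
  rintro ⟨C, hC, hcov⟩
  have hcov1 : 12 ≤ ∑ i, (C i ∩ M₁).card := by
    rw [← card_M₁]
    have h1 : M₁ ⊆ univ.biUnion fun i => C i ∩ M₁ := by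
      intro x hx
      have h2 := (hcov x).1 (mem_union_left _ hx)
      obtain ⟨i, hi⟩ := card_pos.1 h2.pos
      exact mem_biUnion.2 ⟨i, mem_univ _, mem_inter.2 ⟨(mem_filter.1 hi).2, hx⟩⟩
    exact (card_le_card h1).trans card_biUnion_le
  have hcov2 : 12 ≤ ∑ i, (C i ∩ M₂).card := by
    rw [← card_M₂]
    have h1 : M₂ ⊆ univ.biUnion fun i => C i ∩ M₂ := by
      intro x hx
      have h2 := (hcov x).1 (mem_union_right _ hx)
      obtain ⟨i, hi⟩ := card_pos.1 h2.pos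
      exact mem_biUnion.2 ⟨i, mem_univ _, mem_inter.2 ⟨(mem_filter.1 hi).2, hx⟩⟩
    exact (card_le_card h1).trans card_biUnion_le
  have hb1 := fun i => bound (hC i) sum_W₁ card_W₁
  have hb2 := fun i => bound (hC i) sum_W₂ card_W₂
  have hle1 : ∀ i, (C i ∩ M₁).card ≤ 5 := by
    intro i
    by_cases h : C i ⊆ M₁
    · exact (card_le_card inter_subset_left).trans ((hb1 i).1 h)
    · exact ((hb1 i).2 h).trans (by norm_num)
  have hle2 : ∀ i, (C i ∩ M₂).card ≤ 5 := by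
    intro i
    by_cases h : C i ⊆ M₂
    · exact (card_le_card inter_subset_left).trans ((hb2 i).1 h)
    · exact ((hb2 i).2 h).trans (by norm_num)
  -- no circuit is contained in a half
  have hn1 : ∀ i, ¬ C i ⊆ M₁ := by
    intro i hi
    have h1 : (C i ∩ M₂).card = 0 := by
      rw [card_eq_zero, ← disjoint_iff_inter_eq_empty]
      exact disjoint_of_subset_left hi disj
    have h2 : ∑ j, (C j ∩ M₂).card ≤ ∑ j ∈ univ.erase i, 5 := by
      rw [← add_sum_erase _ _ (mem_univ i), h1, zero_add]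
      exact sum_le_sum fun j _ => hle2 j
    rw [sum_const, card_erase_of_mem (mem_univ i), card_univ, Fintype.card_fin, smul_eq_mul] at h2
    omega
  have hn2 : ∀ i, ¬ C i ⊆ M₂ := by
    intro i hi
    have h1 : (C i ∩ M₁).card = 0 := by
      rw [card_eq_zero, ← disjoint_iff_inter_eq_empty]
      exact disjoint_of_subset_left hi disj.symm
    have h2 : ∑ j, (C j ∩ M₁).card ≤ ∑ j ∈ univ.erase i, 5 := by
      rw [← add_sum_erase _ _ (mem_univ i), h1, zero_add]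
      exact sum_le_sum fun j _ => hle1 j
    rw [sum_const, card_erase_of_mem (mem_univ i), card_univ, Fintype.card_fin, smul_eq_mul] at h2
    omega
  have h41 : ∀ i, (C i ∩ M₁).card ≤ 4 := fun i => (hb1 i).2 (hn1 i)
  have h42 : ∀ i, (C i ∩ M₂).card ≤ 4 := fun i => (hb2 i).2 (hn2 i)
  have ht3 : t = 3 := by
    have h2 : ∑ j, (C j ∩ M₁).card ≤ ∑ _j : Fin t, 4 := sum_le_sum fun j _ => h41 j
    rw [sum_const, card_univ, Fintype.card_fin, smul_eq_mul] at h2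
    omega
  subst ht3
  rw [Fin.sum_univ_three] at hcov1 hcov2
  have e1 : ∀ i, (C i ∩ M₁).card = 4 := by
    have a0 := h41 0
    have a1 := h41 1
    have a2 := h41 2
    intro i
    fin_cases i
    · change (C 0 ∩ M₁).card = 4
      omega
    · change (C 1 ∩ M₁).card = 4
      omega
    · change (C 2 ∩ M₁).card = 4
      omega
  have e2 : ∀ i, (C i ∩ M₂).card = 4 := by
    have a0 := h42 0
    have a1 := h42 1
    have a2 := h42 2
    intro i
    fin_cases i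
    · change (C 0 ∩ M₂).card = 4
      omega
    · change (C 1 ∩ M₂).card = 4
      omega
    · change (C 2 ∩ M₂).card = 4
      omega
  have hdisj : ∀ i, Disjoint (C i ∩ M₁) (C i ∩ M₂) := fun i =>
    disjoint_of_subset_left inter_subset_right (disjoint_of_subset_right inter_subset_right disj)
  have e3 : ∀ i, (C i ∩ M).card = 8 := by
    intro i
    rw [M, inter_union_distrib_left, card_union_of_disjoint (hdisj i), e1, e2]
  have hnM : ∀ i, ¬ C i ⊆ M := by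
    intro i hi
    have h1 : C i = (C i ∩ M₁) ∪ (C i ∩ M₂) := by
      rw [← inter_union_distrib_left]
      exact (inter_eq_left.2 hi).symm
    have h2 := (hC i).2.2.1
    rw [h1, sum_union (hdisj i)] at h2
    have h3 := W_inter (sum_W₁ _ inter_subset_right) (sum_W₂ _ inter_subset_right) h2
    have h4 := (hC i).2.2.2 (C i ∩ M₁) inter_subset_left
      (card_pos.1 (by rw [e1]; norm_num)) h3
    exact hn1 i fun x hx => by
      rw [← h4] at hx
      exact (mem_inter.1 hx).2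
  have e4 : ∀ i, (C i \ M).card = 1 := by
    intro i
    have h1 := card_sdiff_add_card_inter (C i) M
    have h2 := circuit_card (hC i)
    have h3 : 0 < (C i \ M).card := by
      rw [card_pos]
      by_contra hcon
      rw [not_nonempty_iff_eq_empty, sdiff_eq_empty_iff_subset] at hcon
      exact hnM i hcon
    rw [e3 i] at h1
    omega
  have hdc : ∑ i, (C i \ M).card = ∑ x ∈ univ \ M, (univ.filter fun i => x ∈ C i).card := by
    have h1 : ∀ i, (C i \ M).card = ∑ x ∈ univ \ M, if x ∈ C i then 1 else 0 := by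
      intro i
      rw [← card_filter]
      congr 1
      ext x
      simp only [mem_sdiff, mem_filter, mem_univ, true_and]
      tauto
    simp only [h1]
    rw [sum_comm]
    refine sum_congr rfl fun x _ => ?_
    rw [← card_filter]
  have heven : Even (∑ x ∈ univ \ M, (univ.filter fun i => x ∈ C i).card) := by
    apply Finset.even_sum
    intro x hx
    have h1 : x ∉ M := (mem_sdiff.1 hx).2
    rw [← Nat.not_odd_iff_even, ← hcov x]
    exact h1
  rw [← hdc, Fin.sum_univ_three, e4, e4, e4] at heven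
  exact absurd heven (by decide)

/-! ### The arboricity -/

/-- Three bases whose rows partition the example. -/
def A : Fin 3 → Matrix (Fin 8) (Fin 8) (ZMod 2) :=
  ![!![0, 0, 1, 0, 0, 0, 0, 0; 1, 0, 1, 0, 0, 0, 0, 0; 0, 1, 1, 0, 0, 0, 0, 0; 0, 0, 0, 1, 0, 0, 0, 0; 0, 0, 0, 0, 0, 0, 1, 0; 0, 0, 0, 0, 1, 0, 1, 0; 0, 0, 0, 0, 0, 1, 1, 0; 0, 0, 0, 0, 0, 0, 0, 1],
    !![1, 1, 1, 0, 0, 0, 0, 0; 1, 0, 0, 1, 0, 0, 0, 0; 0, 1, 0, 1, 0, 0, 0, 0; 0, 0, 1, 1, 0, 0, 0, 0; 0, 0, 0, 0, 1, 1, 1, 0; 0, 0, 0, 0, 1, 0, 0, 1; 0, 0, 0, 0, 0, 1, 0, 1; 0, 0, 0, 0, 0, 0, 1, 1],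
    !![1, 1, 0, 1, 0, 0, 0, 0; 1, 0, 1, 1, 0, 0, 0, 0; 0, 1, 1, 1, 0, 0, 0, 0; 1, 1, 1, 1, 0, 0, 0, 0; 0, 0, 0, 0, 1, 1, 0, 1; 0, 0, 0, 0, 1, 0, 1, 1; 0, 0, 0, 0, 0, 1, 1, 1; 0, 0, 0, 0, 1, 1, 1, 1]]

/-- The inverses. -/
def B : Fin 3 → Matrix (Fin 8) (Fin 8) (ZMod 2) :=
  ![!![1, 1, 0, 0, 0, 0, 0, 0; 1, 0, 1, 0, 0, 0, 0, 0; 1, 0, 0, 0, 0, 0, 0, 0; 0, 0, 0, 1, 0, 0, 0, 0; 0, 0, 0, 0, 1, 1, 0, 0; 0, 0, 0, 0, 1, 0, 1, 0; 0, 0, 0, 0, 1, 0, 0, 0; 0, 0, 0, 0, 0, 0, 0, 1],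
    !![1, 0, 1, 1, 0, 0, 0, 0; 1, 1, 0, 1, 0, 0, 0, 0; 1, 1, 1, 0, 0, 0, 0, 0; 1, 1, 1, 1, 0, 0, 0, 0; 0, 0, 0, 0, 1, 0, 1, 1; 0, 0, 0, 0, 1, 1, 0, 1; 0, 0, 0, 0, 1, 1, 1, 0; 0, 0, 0, 0, 1, 1, 1, 1],
    !![0, 0, 1, 1, 0, 0, 0, 0; 0, 1, 0, 1, 0, 0, 0, 0; 1, 0, 0, 1, 0, 0, 0, 0; 1, 1, 1, 0, 0, 0, 0, 0; 0, 0, 0, 0, 0, 0, 1, 1; 0, 0, 0, 0, 0, 1, 0, 1; 0, 0, 0, 0, 1, 0, 0, 1; 0, 0, 0, 0, 1, 1, 1, 0]]

lemma A_mul_B : ∀ k, A k * B k = 1 := by decide +kernel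

lemma rows_indep (k : Fin 3) : LinearIndependent (ZMod 2) fun i => A k i := by
  have h : IsUnit (A k) := by
    rw [Matrix.isUnit_iff_isUnit_det]
    have h1 := congrArg Matrix.det (A_mul_B k)
    rw [Matrix.det_mul, Matrix.det_one] at h1
    exact IsUnit.of_mul_eq_one _ h1
  exact Matrix.linearIndependent_rows_of_isUnit h

/-- The three independent sets. -/
def I (k : Fin 3) : Finset (Fin 8 → ZMod 2) := univ.image fun i => A k i

lemma I_indep (k : Fin 3) : LinearIndepOn (ZMod 2) id (I k : Set (Fin 8 → ZMod 2)) := by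
  have h := (rows_indep k).linearIndepOn_id
  have e : (I k : Set (Fin 8 → ZMod 2)) = Set.range fun i => A k i := by
    rw [I, coe_image, coe_univ, Set.image_univ]
  rw [e]
  exact h

lemma I_cover : ∀ x, x ∈ M ↔ ∃ k, x ∈ I k := by decide +kernel

lemma arb_le : arb M ≤ 3 := Nat.sInf_le ⟨I, I_indep, I_cover⟩

/-! ### There is an odd-cover -/

/-- Eight disjoint triangles. -/
def Tr : Fin 8 → Finset (Fin 8 → ZMod 2) :=
  ![{![0, 0, 1, 0, 0, 0, 0, 0], ![0, 0, 0, 1, 0, 0, 0, 0], ![0, 0, 1, 1, 0, 0, 0, 0]},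
    {![1, 0, 1, 0, 0, 0, 0, 0], ![0, 1, 0, 1, 0, 0, 0, 0], ![1, 1, 1, 1, 0, 0, 0, 0]},
    {![0, 1, 1, 0, 0, 0, 0, 0], ![1, 1, 0, 1, 0, 0, 0, 0], ![1, 0, 1, 1, 0, 0, 0, 0]},
    {![1, 1, 1, 0, 0, 0, 0, 0], ![1, 0, 0, 1, 0, 0, 0, 0], ![0, 1, 1, 1, 0, 0, 0, 0]},
    {![0, 0, 0, 0, 0, 0, 1, 0], ![0, 0, 0, 0, 0, 0, 0, 1], ![0, 0, 0, 0, 0, 0, 1, 1]},
    {![0, 0, 0, 0, 1, 0, 1, 0], ![0, 0, 0, 0, 0, 1, 0, 1], ![0, 0, 0, 0, 1, 1, 1, 1]},
    {![0, 0, 0, 0, 0, 1, 1, 0], ![0, 0, 0, 0, 1, 1, 0, 1], ![0, 0, 0, 0, 1, 0, 1, 1]},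
    {![0, 0, 0, 0, 1, 1, 1, 0], ![0, 0, 0, 0, 1, 0, 0, 1], ![0, 0, 0, 0, 0, 1, 1, 1]}]

lemma Tr_aux : ∀ i, (Tr i).card = 3 ∧ 0 ∉ Tr i ∧ ∑ x ∈ Tr i, x = 0 := by decide +kernel

lemma triangle {n : ℕ} {C : Finset (Fin n → ZMod 2)} (hcard : C.card = 3) (h0 : 0 ∉ C)
    (hsum : ∑ x ∈ C, x = 0) : IsCircuit C := by
  refine ⟨card_pos.1 (by omega), h0, hsum, fun D hD hne hz => ?_⟩
  have h1 := card_le_card hD
  have h2 := card_pos.2 hne
  rw [hcard] at h1
  have h3 : D.card = 1 ∨ D.card = 2 ∨ D.card = 3 := by omega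
  rcases h3 with h3 | h3 | h3
  · obtain ⟨x, rfl⟩ := card_eq_one.1 h3
    rw [sum_singleton] at hz
    exact absurd (hz ▸ hD (mem_singleton_self x)) h0
  · obtain ⟨x, y, hxy, rfl⟩ := card_eq_two.1 h3
    rw [sum_pair hxy] at hz
    exfalso
    apply hxy
    apply add_right_cancel (b := y)
    rw [hz, add_self']
  · exact eq_of_subset_of_card_le hD (by omega)

lemma Tr_cover : ∀ x, x ∈ M ↔ Odd (univ.filter fun i => x ∈ Tr i).card := by decide +kernel

lemma has_cover : HasOddCover M 8 := by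
  refine ⟨Tr, fun i => ?_, Tr_cover⟩
  obtain ⟨h1, h2, h3⟩ := Tr_aux i
  exact triangle h1 h2 h3

lemma le_c₂ : 4 ≤ c₂ M := by
  apply le_csInf ⟨8, has_cover⟩
  intro t ht
  by_contra hcon
  exact no_cover t (by omega) ht

/-- **Counterexample.** There is an Eulerian binary matroid `M` (24 vectors in `𝔽₂⁸`) with
`a(M) ≤ 3` and `c₂(M) ≥ 4`; in particular `c₂(M) > a(M)`. -/
theorem result : ∃ M : Finset (Fin 8 → ZMod 2), 0 ∉ M ∧ ∑ x ∈ M, x = 0 ∧
    arb M ≤ 3 ∧ 4 ≤ c₂ M ∧ arb M < c₂ M := by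
  refine ⟨M, by decide +kernel, sum_M, arb_le, le_c₂, ?_⟩
  have h1 := arb_le
  have h2 := le_c₂
  omega

end Pool.Agent.Results.MP_a03d73_co.OddCover
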